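import Mathlib

/-!
# Project FE (helper26): continuous solutions of `f (x + f x) = f x + f (f x)` (MP_12983e_an)

Definitions and basic facts.
-/

set_option autoImplicit false

open Set Filter Topology

namespace Pool.Agent.T2h26.FE

/-- the continuous solutions -/
structure Sol (f : ℝ → ℝ) : Prop where
  cont : Continuous f
  eq : ∀ x, f (x + f x) = f x + f (f x)

/-- the function `g = id + f`; the equation says that `f` and `g` commute -/
def gg (f : ℝ → ℝ) (x : ℝ) : ℝ := x + f x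

/-- the mirror image -/
def mir (f : ℝ → ℝ) (x : ℝ) : ℝ := -f (-x)

/-- the iterated difference `Δ^m c (k)` -/
def Dl : ℕ → (ℤ → ℝ) → ℤ → ℝ
  | 0, c, k => c k
  | m + 1, c, k => Dl m c (k + 1) - Dl m c k

/-- absolutely monotone sequences on `ℤ` -/
def AM (c : ℤ → ℝ) : Prop := ∀ m k, 0 ≤ Dl m c k

variable {f : ℝ → ℝ}

theorem gg_cont (hf : Sol f) : Continuous (gg f) := continuous_id.add hf.cont

theorem Sol.zero (hf : Sol f) : f 0 = 0 := by
  have := hf.eq 0
  rw [zero_add] at this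
  linarith

theorem gg_zero (hf : Sol f) : gg f 0 = 0 := by
  unfold gg
  rw [hf.zero, add_zero]

theorem mir_sol (hf : Sol f) : Sol (mir f) := by
  refine ⟨(hf.cont.comp continuous_neg).neg, fun x => ?_⟩
  unfold mir
  have := hf.eq (-x)
  have h1 : -(x + -f (-x)) = -x + f (-x) := by ring
  rw [h1, this, neg_neg]
  ring

theorem mir_mir (f : ℝ → ℝ) : mir (mir f) = f := by
  funext x
  unfold mir
  rw [neg_neg, neg_neg]

theorem gg_mir (f : ℝ → ℝ) (x : ℝ) : gg (mir f) x = -gg f (-x) := by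
  unfold gg mir
  ring

theorem Sol.comm (hf : Sol f) (x : ℝ) : f (gg f x) = gg f (f x) := hf.eq x

theorem Sol.commute (hf : Sol f) : Function.Commute f (gg f) := fun x => hf.comm x

theorem Sol.comm_iter (hf : Sol f) (m n : ℕ) (x : ℝ) :
    f^[m] ((gg f)^[n] x) = (gg f)^[n] (f^[m] x) :=
  (hf.commute.iterate_iterate m n).eq x

theorem Sol.f_iter_g (hf : Sol f) (n : ℕ) (x : ℝ) : f ((gg f)^[n] x) = (gg f)^[n] (f x) :=
  hf.comm_iter 1 n x

theorem Sol.g_iter_f (hf : Sol f) (n : ℕ) (x : ℝ) : gg f (f^[n] x) = f^[n] (gg f x) :=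
  (hf.comm_iter n 1 x).symm

/-- if `f x = f y` then the `g`-orbits keep their distance -/
theorem Sol.fdiff (hf : Sol f) {x y : ℝ} (h : f x = f y) (n : ℕ) :
    (gg f)^[n] x - (gg f)^[n] y = x - y := by
  induction n with
  | zero => rfl
  | succ n ih =>
    rw [Function.iterate_succ_apply', Function.iterate_succ_apply']
    have h1 : f ((gg f)^[n] x) = f ((gg f)^[n] y) := by rw [hf.f_iter_g, hf.f_iter_g, h]
    unfold gg at *
    linarith

/-- if `g x = g y` then the `f`-orbits keep their distance, with alternating sign -/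
theorem Sol.gdiff (hf : Sol f) {x y : ℝ} (h : gg f x = gg f y) (k : ℕ) :
    f^[k] x - f^[k] y = (-1) ^ k * (x - y) := by
  induction k with
  | zero => simp
  | succ k ih =>
    have h1 : gg f (f^[k] x) = gg f (f^[k] y) := by rw [hf.g_iter_f, hf.g_iter_f, h]
    rw [Function.iterate_succ_apply', Function.iterate_succ_apply']
    unfold gg at h1
    rw [pow_succ]
    linarith

/-- the set `E = {f e = -e} = {g = 0}` is symmetric -/
theorem Sol.E_symm (hf : Sol f) {e : ℝ} (h : gg f e = 0) : gg f (-e) = 0 := by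
  have h1 : f e = -e := by unfold gg at h; linarith
  rw [← h1, ← hf.comm, h, hf.zero]

/-- `f x` is in `E` iff `g x` is a zero of `f` -/
theorem Sol.E_iff (hf : Sol f) (x : ℝ) : gg f (f x) = 0 ↔ f (gg f x) = 0 := by
  rw [hf.comm]

theorem Sol.g_iter_lim (hf : Sol f) {x L : ℝ}
    (h : Tendsto (fun n => (gg f)^[n] x) atTop (𝓝 L)) : f L = 0 := by
  have h1 : Tendsto (fun n => (gg f)^[n + 1] x) atTop (𝓝 L) := (tendsto_add_atTop_iff_nat 1).2 h
  have h2 : Tendsto (fun n => (gg f)^[n + 1] x) atTop (𝓝 (gg f L)) := by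
    have := ((gg_cont hf).tendsto L).comp h
    refine this.congr fun n => ?_
    rw [Function.iterate_succ_apply']
    rfl
  have h3 := tendsto_nhds_unique h1 h2
  unfold gg at h3
  linarith

theorem Sol.f_iter_lim (hf : Sol f) {x L : ℝ}
    (h : Tendsto (fun n => f^[n] x) atTop (𝓝 L)) : f L = L := by
  have h1 : Tendsto (fun n => f^[n + 1] x) atTop (𝓝 L) := (tendsto_add_atTop_iff_nat 1).2 h
  have h2 : Tendsto (fun n => f^[n + 1] x) atTop (𝓝 (f L)) := by
    have := (hf.cont.tendsto L).comp h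
    refine this.congr fun n => ?_
    rw [Function.iterate_succ_apply']
    rfl
  exact tendsto_nhds_unique h2 h1

/-- if `f < 0` and `g > 0` on `(0, b)` then all `g`-orbits in `(0, b)` tend to `0` -/
theorem Sol.lim_down (hf : Sol f) {b : ℝ} (h : ∀ z ∈ Ioo 0 b, f z < 0 ∧ 0 < gg f z) :
    ∀ x ∈ Ioo 0 b, Tendsto (fun n => (gg f)^[n] x) atTop (𝓝 0) := by
  intro x hx
  have h1 : ∀ n, (gg f)^[n] x ∈ Ioo 0 b ∧ (gg f)^[n] x ≤ x := by
    intro n
    induction n with
    | zero => exact ⟨hx, le_rfl⟩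
    | succ n ih =>
      rw [Function.iterate_succ_apply']
      have h2 := h _ ih.1
      have h3 : gg f ((gg f)^[n] x) < (gg f)^[n] x := by
        have : gg f ((gg f)^[n] x) = (gg f)^[n] x + f ((gg f)^[n] x) := rfl
        linarith [h2.1]
      exact ⟨⟨h2.2, h3.trans ih.1.2⟩, h3.le.trans ih.2⟩
  have hanti : Antitone (fun n => (gg f)^[n] x) := by
    refine antitone_nat_of_succ_le fun n => ?_
    rw [Function.iterate_succ_apply']
    have : gg f ((gg f)^[n] x) = (gg f)^[n] x + f ((gg f)^[n] x) := rfl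
    linarith [(h _ (h1 n).1).1]
  have hbdd : BddBelow (range (fun n => (gg f)^[n] x)) := ⟨0, by
    rintro _ ⟨n, rfl⟩
    exact (h1 n).1.1.le⟩
  have hlim := tendsto_atTop_ciInf hanti hbdd
  set L := ⨅ n, (gg f)^[n] x with hL
  have hL0 : 0 ≤ L := le_ciInf fun n => (h1 n).1.1.le
  have hLx : L ≤ x := ciInf_le hbdd 0
  have hfL := hf.g_iter_lim hlim
  rcases hL0.eq_or_lt with h0 | h0
  · rw [← h0] at hlim
    exact hlim
  · exact absurd hfL (h L ⟨h0, hLx.trans_lt hx.2⟩).1.ne

theorem Sol.inj_of_g_lim (hf : Sol f) {x y : ℝ}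
    (hx : Tendsto (fun n => (gg f)^[n] x) atTop (𝓝 0))
    (hy : Tendsto (fun n => (gg f)^[n] y) atTop (𝓝 0)) (h : f x = f y) : x = y := by
  have h1 := hx.sub hy
  have h2 : Tendsto (fun n => (gg f)^[n] x - (gg f)^[n] y) atTop (𝓝 (x - y)) := by
    refine tendsto_const_nhds.congr fun n => ?_
    rw [hf.fdiff h]
  have := tendsto_nhds_unique h1 h2
  linarith

theorem Sol.inj_of_f_lim (hf : Sol f) {x y : ℝ}
    (hx : Tendsto (fun n => |f^[n] x - f^[n] y|) atTop (𝓝 0)) (h : gg f x = gg f y) : x = y := by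
  have h2 : Tendsto (fun n => |f^[n] x - f^[n] y|) atTop (𝓝 |x - y|) := by
    refine tendsto_const_nhds.congr fun n => ?_
    rw [hf.gdiff h, abs_mul, abs_pow, abs_neg, abs_one, one_pow, one_mul]
  have := tendsto_nhds_unique hx h2
  exact sub_eq_zero.1 (abs_eq_zero.1 this.symm)

/-- a continuous function with equal values at the ends takes some value twice inside -/
theorem two_pts {h : ℝ → ℝ} (hc : Continuous h) {a b : ℝ} (hab : a < b) (he : h a = h b) :
    ∃ x ∈ Ioo a b, ∃ y ∈ Ioo a b, x < y ∧ h x = h y := by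
  by_cases hcon : ∀ x ∈ Icc a b, h x = h a
  · refine ⟨(2 * a + b) / 3, ⟨by linarith, by linarith⟩, (a + 2 * b) / 3,
      ⟨by linarith, by linarith⟩, by linarith, ?_⟩
    exact (hcon _ ⟨by linarith, by linarith⟩).trans (hcon _ ⟨by linarith, by linarith⟩).symm
  · push Not at hcon
    obtain ⟨c, hc1, hc2⟩ := hcon
    have hac : a < c := lt_of_le_of_ne hc1.1 (fun h' => hc2 (by rw [h']))
    have hcb : c < b := lt_of_le_of_ne hc1.2 (fun h' => hc2 (by rw [h', he]))
    set v := (h a + h c) / 2 with hv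
    have key : ∀ u w : ℝ, u < w → (h u = h a ∧ h w = h c ∨ h u = h c ∧ h w = h a) →
        ∃ x ∈ Ioo u w, h x = v := by
      intro u w huw huv
      have hmem : v ∈ uIcc (h u) (h w) := by
        rcases huv with ⟨h1, h2⟩ | ⟨h1, h2⟩ <;> rw [h1, h2, hv, mem_uIcc] <;>
          rcases le_total (h a) (h c) with h3 | h3
        · left; constructor <;> linarith
        · right; constructor <;> linarith
        · right; constructor <;> linarith
        · left; constructor <;> linarith
      obtain ⟨x, hx, hxv⟩ := intermediate_value_uIcc (hc.continuousOn (s := uIcc u w)) hmem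
      rw [uIcc_of_le huw.le] at hx
      have hne : v ≠ h a ∧ v ≠ h c := by
        constructor
        · intro h'; apply hc2; rw [hv] at h'; linarith
        · intro h'; apply hc2; rw [hv] at h'; linarith
      refine ⟨x, ⟨lt_of_le_of_ne hx.1 ?_, lt_of_le_of_ne hx.2 ?_⟩, hxv⟩
      · rintro rfl
        rcases huv with ⟨h1, _⟩ | ⟨h1, _⟩
        · exact hne.1 (by rw [← hxv, h1])
        · exact hne.2 (by rw [← hxv, h1])
      · rintro rfl
        rcases huv with ⟨_, h1⟩ | ⟨_, h1⟩
        · exact hne.2 (by rw [← hxv, h1])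
        · exact hne.1 (by rw [← hxv, h1])
    obtain ⟨x, hx, hxv⟩ := key a c hac (Or.inl ⟨rfl, rfl⟩)
    obtain ⟨y, hy, hyv⟩ := key c b hcb (Or.inr ⟨rfl, he.symm⟩)
    exact ⟨x, ⟨hx.1, hx.2.trans hcb⟩, y, ⟨hac.trans hy.1, hy.2⟩, hx.2.trans hy.1,
      by rw [hxv, hyv]⟩

end Pool.Agent.T2h26.FE
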