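import Pool.Agent.T2h26.FE.Base

/-!
# Project FE (helper26): statements of the parts

MP_12983e_an (full answer): the continuous solutions of `f (x + f x) = f x + f (f x)` are exactly
the linear functions and the functions `a x` for `x ≥ 0`, `b x` for `x ≤ 0` with `a, b ≥ 0`.

Write `g = gg f = id + f`; the equation says `f ∘ g = g ∘ f`. `E = {g = 0} = {f e = -e}`.
-/

set_option autoImplicit false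

open Set Filter Topology

namespace Pool.Agent.T2h26.FE

/-! ### Sequences on `ℤ` -/

/-- **LC.** Absolutely monotone sequences on `ℤ` are log-convex. -/
def S_LC : Prop := ∀ c : ℤ → ℝ, AM c → ∀ k, c (k + 1) ^ 2 ≤ c k * c (k + 2)

/-- **UNQ.** An absolutely monotone sequence with exponential growth is determined by its values at
the positive integers. -/
def S_UNQ : Prop := ∀ (c c' : ℤ → ℝ) (K S : ℝ), AM c → AM c' →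
  (∀ k : ℕ, c k ≤ K * S ^ k ∧ c' k ≤ K * S ^ k) → (∀ k : ℤ, 1 ≤ k → c k = c' k) → c 0 = c' 0

/-- **RAT.** The ratio limits of an absolutely monotone sequence with exponential growth. -/
def S_RAT : Prop := ∀ (c : ℤ → ℝ) (K S : ℝ), AM c → (∀ k, 0 < c k) → (∀ k : ℕ, c k ≤ K * S ^ k) →
  ∃ l₁ l₂ : ℝ, 1 ≤ l₁ ∧ l₁ ≤ l₂ ∧ (l₁ = l₂ → ∀ k, c k = c 0 * l₂ ^ k) ∧
    (∀ m : ℕ, Tendsto (fun k => Dl m c k / c k) atBot (𝓝 ((l₁ - 1) ^ m)) ∧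
      Tendsto (fun k => Dl m c k / c k) atTop (𝓝 ((l₂ - 1) ^ m))) ∧
    ∀ n : ℤ, Tendsto (fun k => c (k + n) / c k) atBot (𝓝 (l₁ ^ n)) ∧
      Tendsto (fun k => c (k + n) / c k) atTop (𝓝 (l₂ ^ n))

/-- **EXP.** Exponents. -/
def S_EXP : Prop := ∀ s t : ℝ, 0 ≤ s → s < t → ∃ (m : ℕ) (n : ℤ), 0 < m ∧
  s ^ (2 * m) < (1 + s) ^ (2 * n) ∧ (1 + t) ^ (2 * n) < t ^ (2 * m)

/-! ### Systems -/

/-- A system: two commuting maps with `|F x| = |x| + |G x|`, `F` surjective. -/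
structure Sys (F G : ℝ → ℝ) (X : Set ℝ) : Prop where
  contF : Continuous F
  contG : Continuous G
  ne : ∀ x ∈ X, x ≠ 0
  mapF : ∀ x ∈ X, F x ∈ X
  mapG : ∀ x ∈ X, G x ∈ X
  comm : ∀ x ∈ X, F (G x) = G (F x)
  abs : ∀ x ∈ X, |F x| = |x| + |G x|
  surj : ∀ x ∈ X, ∃ y ∈ X, F y = x

/-- **ORB.** Two-sided `F`-orbits and their differences. -/
def S_ORB : Prop := ∀ (F G : ℝ → ℝ) (X : Set ℝ), Sys F G X →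
  (∀ x ∈ X, ∀ y ∈ X, F y = x → ∃ o : ℤ → ℝ, o 0 = x ∧ o (-1) = y ∧
    ∀ k, o k ∈ X ∧ F (o k) = o (k + 1)) ∧
  ∀ o : ℤ → ℝ, (∀ k, o k ∈ X ∧ F (o k) = o (k + 1)) →
    (∀ m : ℕ, ∀ k, G^[m] (o k) ∈ X ∧ F (G^[m] (o k)) = G^[m] (o (k + 1)) ∧
      Dl m (fun j => |o j|) k = |G^[m] (o k)|) ∧ AM (fun j => |o j|) ∧ ∀ k, 0 < |o k|

/-- **GRO.** Growth. -/
def S_GRO : Prop := ∀ (F G : ℝ → ℝ) (X : Set ℝ), Sys F G X →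
  ∃ C : ℝ, 1 ≤ C ∧ ∀ x ∈ X, ∀ k : ℕ, |F^[k] x| ≤ max |x| 1 * C ^ k

/-- **INJ.** `F` is injective up to the sign. -/
def S_INJ : Prop := ∀ (F G : ℝ → ℝ) (X : Set ℝ), Sys F G X →
  ∀ x ∈ X, ∀ y ∈ X, F x = F y → |x| = |y|

/-- **RIG.** Rigidity. -/
def S_RIG : Prop := ∀ (F G : ℝ → ℝ) (X : Set ℝ), Sys F G X →
  (∀ x ∈ X, (0 < x ↔ 0 < F (F x))) → (∀ x ∈ X, 0 < x → 0 < G (G x)) →
  (∀ x ∈ X, ∀ y ∈ X, 0 < x → x < y → F (F x) < F (F y)) →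
  ∃ l : ℝ, 1 < l ∧ ∀ x ∈ X, 0 < x → |F x| = l * x ∧ F (F x) = l ^ 2 * x

/-! ### The positive case -/

/-- **POS.** -/
def S_POS : Prop := ∀ f : ℝ → ℝ, Sol f → (∀ x, 0 < x → 0 < f x) →
  ∃ a : ℝ, 0 < a ∧ ∀ x, 0 < x → f x = a * x

/-- **ZER.** -/
def S_ZER : Prop := ∀ f : ℝ → ℝ, Sol f → (∀ x, 0 < x → 0 ≤ f x) →
  (∀ x, 0 < x → f x = 0) ∨ (∀ x, 0 < x → 0 < f x)

/-- **HAL.** The half-line: from POS and ZER. -/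
def S_HAL : Prop := ∀ f : ℝ → ℝ, Sol f → (∀ x, 0 < x → 0 ≤ f x) →
  ∃ a : ℝ, 0 ≤ a ∧ ∀ x, 0 ≤ x → f x = a * x

/-- **BON.** If `f` is linear with a nonnegative slope on the negative half-line then `f ≥ 0` on the
positive half-line. -/
def S_BON : Prop := ∀ f : ℝ → ℝ, Sol f → (∃ b : ℝ, 0 ≤ b ∧ ∀ y, y ≤ 0 → f y = b * y) →
  ∀ x, 0 < x → 0 ≤ f x

/-! ### Behaviour near `0` -/

/-- **SW.** The sweeping lemma. -/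
def S_SW : Prop := ∀ (h u : ℝ → ℝ) (κ σ p q : ℝ), 0 < κ → (σ = 1 ∨ σ = -1) → p < q →
  Continuous u → u p = 0 → (∀ x ∈ Ioo p q, 0 < u x) →
  ¬ ∀ x ∈ Ioo p q, ∀ n : ℕ, h (x + σ * (n * κ * u x)) = u x

/-- **NEA.** -/
def S_NEA : Prop := ∀ f : ℝ → ℝ, Sol f → (∃ ε : ℝ, 0 < ε ∧ ∀ y ∈ Ioo (-ε) 0, f y = 0) →
  ∀ x, 0 < x → 0 ≤ f x

/-- **NEB.** -/
def S_NEB : Prop := ∀ f : ℝ → ℝ, Sol f → (∃ ε : ℝ, 0 < ε ∧ ∀ x ∈ Ioo 0 ε, 0 < f x) →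
  ∀ x, 0 < x → 0 < f x

/-- **NED.** If zeros accumulate at `0+` then `E` has no positive element. -/
def S_NED : Prop := ∀ f : ℝ → ℝ, Sol f → (∀ ε : ℝ, 0 < ε → ∃ z ∈ Ioo 0 ε, f z = 0) →
  ∀ e, 0 < e → f e ≠ -e

/-- **NEF.** -/
def S_NEF : Prop := ∀ f : ℝ → ℝ, Sol f → (∀ ε : ℝ, 0 < ε → ∃ z ∈ Ioo 0 ε, f z = 0) →
  (∀ ε : ℝ, 0 < ε → ∃ x ∈ Ioo 0 ε, f x ≠ 0) → (∀ e, 0 < e → f e ≠ -e) → ∀ y, y < 0 → f y ≤ 0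

/-- **CC.** -/
def S_CC : Prop := ∀ f : ℝ → ℝ, Sol f → (∃ ε : ℝ, 0 < ε ∧ ∀ x ∈ Ioo 0 ε, f x < 0) →
  (∃ ε : ℝ, 0 < ε ∧ ∀ y ∈ Ioo (-ε) 0, 0 < f y) → ∀ x, 0 < x → f x < 0

/-- **STR.** The strict case: from NEA, NEB, NED, NEF, CC. -/
def S_STR : Prop := ∀ f : ℝ → ℝ, Sol f → (∃ x, 0 < x ∧ f x < 0) → (∃ y, y < 0 ∧ 0 < f y) →
  (∀ x, 0 < x → f x < 0) ∧ (∀ y, y < 0 → 0 < f y)

/-! ### The strict case -/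

/-- **BD.** Between two elements of `E ∪ {0}` on the positive half-line there is another one. -/
def S_BD : Prop := ∀ f : ℝ → ℝ, Sol f → (∀ x, 0 < x → f x < 0) → (∀ y, y < 0 → 0 < f y) →
  ∀ α β : ℝ, 0 ≤ α → α < β → gg f α = 0 → gg f β = 0 → ∃ x ∈ Ioo α β, gg f x = 0

/-- **EEA.** If `E` has a positive element then `g ≤ 0` on the positive half-line. -/
def S_EEA : Prop := ∀ f : ℝ → ℝ, Sol f → (∀ x, 0 < x → f x < 0) → (∀ y, y < 0 → 0 < f y) →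
  (∃ e, 0 < e ∧ gg f e = 0) → ∀ x, 0 < x → gg f x ≤ 0

/-- **EEB.** If `E` has a positive element then `f = -id`. -/
def S_EEB : Prop := ∀ f : ℝ → ℝ, Sol f → (∀ x, 0 < x → f x < 0) → (∀ y, y < 0 → 0 < f y) →
  (∃ e, 0 < e ∧ gg f e = 0) → ∀ x, f x = -x

/-- **LCN.** Log-convexity for the positive solutions of Pascal's recursion on `ℕ × ℕ`. -/
def S_LCN : Prop := ∀ u : ℕ → ℕ → ℝ, (∀ m n, 0 ≤ u m n) →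
  (∀ m n, u m n = u (m + 1) n + u m (n + 1)) →
  (u 0 1 ^ 2 ≤ u 0 0 * u 0 2) ∧ (u 1 0 ^ 2 ≤ u 0 0 * u 2 0)

/-- **EXN.** Exponents. -/
def S_EXN : Prop := ∀ s t : ℝ, 0 < s → s ≤ 1 → 0 < t → t ≤ 1 → 1 < s + t →
  ∃ m n : ℕ, 0 < m ∧ 0 < n ∧ (1 - s) ^ (2 * m) < s ^ n ∧ (1 - t) ^ n < t ^ (2 * m)

/-- **CON.** The contracting case. -/
def S_CON : Prop := ∀ f : ℝ → ℝ, Sol f → (∀ x, 0 < x → f x < 0 ∧ 0 < gg f x) →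
  (∀ y, y < 0 → 0 < f y ∧ gg f y < 0) → ∃ a : ℝ, ∀ x, f x = a * x

/-- **EXD.** The expanding case. -/
def S_EXD : Prop := ∀ f : ℝ → ℝ, Sol f → (∀ x, 0 < x → f x < 0 ∧ gg f x < 0) →
  (∀ y, y < 0 → 0 < f y ∧ 0 < gg f y) → ∃ a : ℝ, ∀ x, f x = a * x

/-- **LIN.** From EEB, CON, EXD. -/
def S_LIN : Prop := ∀ f : ℝ → ℝ, Sol f → (∀ x, 0 < x → f x < 0) → (∀ y, y < 0 → 0 < f y) →
  ∃ a : ℝ, ∀ x, f x = a * x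

/-- **FIN.** The classification. -/
def S_FIN : Prop := ∀ f : ℝ → ℝ, Sol f ↔
  (∃ a : ℝ, ∀ x, f x = a * x) ∨
  ∃ a b : ℝ, 0 ≤ a ∧ 0 ≤ b ∧ ∀ x, f x = if 0 ≤ x then a * x else b * x

end Pool.Agent.T2h26.FE
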